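import Pool.Agent.helper97.GD.AllB

set_option autoImplicit false

/-!
# Balanced factors of `n ^ n + 1` have no short arithmetic description

`n = 2 ^ (2 ^ k)`, so `n ^ n = 2 ^ (2 ^ (k + 2 ^ k))`. In a bounded number of rounds of operations (`Op`) from all integers with at most `(log n ^ n) / q`
binary digits one obtains only integers whose greatest common divisor with `F = n ^ n + 1`, or its quotient with `F`, is at most `F ^ (1 / d)`.
-/

namespace Pool.Agent.Results.MP_a70bdc_nt.BoundedPrograms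

open Pool.Agent.GD

theorem pow_eq (k n : ℕ) (hn : n = 2 ^ 2 ^ k) : n ^ n = 2 ^ 2 ^ (k + 2 ^ k) := by
  subst hn
  rw [← pow_mul, ← pow_add]

theorem result :
    ∀ s d : ℕ, 0 < d → ∃ q k₀ : ℕ, 0 < q ∧ ∀ k n : ℕ, k₀ ≤ k → n = 2 ^ 2 ^ k → ∀ z ∈ Cx (k + 2 ^ k) q s s,
      (Int.gcd z (n ^ n + 1)) ^ d ≤ n ^ n + 1 ∨ ((n ^ n + 1) / Int.gcd z (n ^ n + 1)) ^ d ≤ n ^ n + 1 := by
  intro s d hd
  obtain ⟨q, m₀, hq, h⟩ := A_BCP s d hd
  refine ⟨q, m₀, hq, fun k n hk hn z hz => ?_⟩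
  have e : n ^ n = 2 ^ 2 ^ (k + 2 ^ k) := pow_eq k n hn
  have eZ : (n : ℤ) ^ n = 2 ^ 2 ^ (k + 2 ^ k) := by exact_mod_cast e
  rw [e, eZ]
  exact h (k + 2 ^ k) (hk.trans (Nat.le_add_right _ _)) z hz

end Pool.Agent.Results.MP_a70bdc_nt.BoundedPrograms
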