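import Pool.Agent.helper39.NR.Wrap

set_option autoImplicit false

namespace Pool.Agent.Results.MP_a70bdc_nt.UniqueFactorization

open NumberField

/-- The ideal `I` becomes principal in some cyclotomic field `L = Q(zeta_k)` containing `K`. -/
def BecomesPrincipal {K : Type} [Field K] [NumberField K] (I : Ideal (𝓞 K)) : Prop :=
  ∃ (k : ℕ) (L : Type) (_ : Field L) (_ : NumberField L) (_ : IsCyclotomicExtension {k} ℚ L) (_ : Algebra K L),
    0 < k ∧ (I.map (algebraMap (𝓞 K) (𝓞 L))).IsPrincipal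

/-- Any two factorisations of `x` into irreducibles agree up to order and units. -/
def FactorsUniquely {R : Type} [CommRing R] (x : R) : Prop :=
  ∀ s t : Multiset R, (∀ a ∈ s, Irreducible a) → (∀ a ∈ t, Irreducible a) → Associated s.prod x →
    Associated t.prod x → Multiset.Rel Associated s t

/-- `I * A` is principal for some ideal `A ≠ 0` with `conj(A) = A`. -/
def MinusTrivial {K : Type} [Field K] [NumberField K] (conj : 𝓞 K ≃+* 𝓞 K) (I : Ideal (𝓞 K)) : Prop :=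
  ∃ A : Ideal (𝓞 K), A ≠ ⊥ ∧ A.map conj = A ∧ (I * A).IsPrincipal

/-- `I` is a product of at most `r` prime ideals containing `F`, or it contains a product of at most `r` numbers
`2 - z^t`, `t` odd. -/
def Short {K : Type} [Field K] [NumberField K] (F r : ℕ) (z : 𝓞 K) (I : Ideal (𝓞 K)) : Prop :=
  (∃ S : Multiset (Ideal (𝓞 K)), Multiset.card S ≤ r ∧ (∀ P ∈ S, P.IsPrime ∧ (F : 𝓞 K) ∈ P) ∧ I = S.prod) ∨
    ∃ s : Multiset ℕ, Multiset.card s ≤ r ∧ (∀ t ∈ s, Odd t) ∧ (s.map fun t => 2 - z ^ t).prod ∈ I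

lemma pow_self (s : ℕ) : ((2 : ℕ) ^ 2 ^ s) ^ (2 : ℕ) ^ 2 ^ s + 1 = 2 ^ 2 ^ (s + 2 ^ s) + 1 := by
  rw [← pow_mul, ← pow_add]

/-- **Unique factorisation of `n^n + 1` in `Z[zeta_(2N)]`, `N = n * log_2 n`, and its primality.**
Let `n = 2^(2^s)`, `N = n * 2^s`, and let `z` be a primitive `2N`-th root of unity in the ring of
integers of `K = Q(zeta_(2N))`.  Then `2 - z` is irreducible; an ideal containing `2 - z` which becomes principal in some
cyclotomic field is `(1)` or `(2 - z)`; and the following are equivalent: `n^n + 1` is prime; `2 - z` is a prime element;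
`n^n + 1` factors uniquely into irreducibles; some prime ideal containing `n^n + 1` is principal; some prime ideal
containing `n^n + 1` becomes principal in some cyclotomic field.

More generally let `r ≥ 1`, `(32 r)^(9^r + r) < N`, and let `conj` be the complex conjugation.  An ideal `I` which is a
product of at most `r` prime ideals containing `n^n + 1`, or which contains a product of at most `r` numbers `2 - z^t`, `t`
odd, is trivial in the class group modulo the classes of the invariant ideals if and only if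
`I = (2 - z^(t_1)) ... (2 - z^(t_k)) * J * conj(J)` with odd `t_i`; this is the case if `I` becomes principal in some
cyclotomic field.  `n^n + 1` is prime if and only if `P^j` is trivial in this sense for some prime ideal `P` containing
`n^n + 1` and some `1 ≤ j ≤ r`; and if the norm of an integer of `K` is, up to sign, a product `d` of at most `r` primes
dividing `n^n + 1`, then `d = k^2` or `d = (n^n + 1) * k^2`. -/
theorem result (s n : ℕ) (hn : n = 2 ^ 2 ^ s) (K : Type) [Field K] [NumberField K]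
    [IsCyclotomicExtension {2 * (n * 2 ^ s)} ℚ K] (z : 𝓞 K) (hz : IsPrimitiveRoot z (2 * (n * 2 ^ s))) :
    Irreducible (2 - z) ∧
    (∀ I : Ideal (𝓞 K), 2 - z ∈ I → BecomesPrincipal I → I = ⊤ ∨ I = Ideal.span {2 - z}) ∧
    List.TFAE [Nat.Prime (n ^ n + 1), Prime (2 - z), FactorsUniquely ((n ^ n + 1 : ℕ) : 𝓞 K),
      ∃ P : Ideal (𝓞 K), P.IsPrime ∧ ((n ^ n + 1 : ℕ) : 𝓞 K) ∈ P ∧ P.IsPrincipal,
      ∃ P : Ideal (𝓞 K), P.IsPrime ∧ ((n ^ n + 1 : ℕ) : 𝓞 K) ∈ P ∧ BecomesPrincipal P] ∧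
    ∃ conj : 𝓞 K ≃+* 𝓞 K, conj z * z = 1 ∧ ∀ r : ℕ, 1 ≤ r → (32 * r) ^ (9 ^ r + r) < n * 2 ^ s →
      (∀ I : Ideal (𝓞 K), Short (n ^ n + 1) r z I →
        (MinusTrivial conj I ↔ ∃ (t : Multiset ℕ) (J : Ideal (𝓞 K)), (∀ i ∈ t, Odd i) ∧
          I = (t.map fun i => Ideal.span {2 - z ^ i}).prod * (J * J.map conj)) ∧
        (BecomesPrincipal I → MinusTrivial conj I)) ∧
      (Nat.Prime (n ^ n + 1) ↔ ∃ P : Ideal (𝓞 K), P.IsPrime ∧ ((n ^ n + 1 : ℕ) : 𝓞 K) ∈ P ∧
        ∃ j : ℕ, 1 ≤ j ∧ j ≤ r ∧ MinusTrivial conj (P ^ j)) ∧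
      (∀ d : ℕ, d ≠ 0 → d.primeFactorsList.length ≤ r → (∀ p : ℕ, p.Prime → p ∣ d → p ∣ n ^ n + 1) →
        (∃ x : 𝓞 K, (Algebra.norm ℤ x).natAbs = d) → ∃ k : ℕ, d = k ^ 2 ∨ d = (n ^ n + 1) * k ^ 2) := by
  obtain ⟨fp1, tfa, -, -⟩ := Pool.Agent.UFG.main
  obtain ⟨irr, -, -, -, -⟩ := Pool.Agent.UF.main
  rename_i hK
  subst hn
  have e1 : 2 * (2 ^ 2 ^ s * 2 ^ s) = 2 ^ (s + 2 ^ s + 1) := by
    rw [pow_succ, pow_add]; ring
  have e2 : 2 ^ 2 ^ s * 2 ^ s = 2 ^ (s + 2 ^ s) := by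
    rw [pow_add]; ring
  rw [e1] at hz
  rw [e1] at hK
  rw [pow_self, e2]
  exact ⟨irr _ K z hz, fun I h1 h2 => fp1 _ K z hz I (Ideal.dvd_span_singleton.mpr h1) h2, tfa _ K z hz,
    Pool.Agent.helper39.NR.main _ K z hz⟩

end Pool.Agent.Results.MP_a70bdc_nt.UniqueFactorization
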