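import Pool.Agent.helper97.GD.All

set_option autoImplicit false

/-!
# True universal sentences do not prove that infinitely many numbers `n ^ n + 1`, `n = 2 ^ (2 ^ s)`, are composite

`UnivTh` is the set of all universal first order sentences true in the integers, in the language `Lb` with `0, 1, -, +, *, <`,
`2 ^ x`, case distinction, the floor of `x / c` for every constant `c`, the floor of `x / 2 ^ y`, all bitwise Boolean
operations, number and sum of the binary digits. The last part is the reason, for every large `n = 2 ^ (2 ^ k)`: a term with arguments of at most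
`ε n log n` binary digits has only small common factors with `n ^ n + 1`, or is a multiple of it.
-/

namespace Pool.Agent.Results.MP_a70bdc_nt.UniversalSentences

open FirstOrder FirstOrder.Language Pool.Agent.UnivT Pool.Agent.GD

theorem pow_eq (k n : ℕ) (hn : n = 2 ^ 2 ^ k) : n ^ n = 2 ^ 2 ^ (k + 2 ^ k) := by
  subst hn
  rw [← pow_mul, ← pow_add]

theorem rpow_eq (k n : ℕ) (hn : n = 2 ^ 2 ^ k) (ε : ℝ) : (n : ℝ) ^ (ε * n) = (2 : ℝ) ^ (ε * 2 ^ (k + 2 ^ k)) := by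
  have h1 : (n : ℝ) = 2 ^ (2 ^ k) := by rw [hn]; push_cast; rfl
  have h2 : (n : ℝ) = (2 : ℝ) ^ (((2 : ℝ) ^ k)) := by
    have h := Real.rpow_natCast (2 : ℝ) (2 ^ k)
    rw [h1, ← h]; push_cast; rfl
  have h3 : (2 : ℝ) ^ k * (ε * n) = ε * 2 ^ (k + 2 ^ k) := by
    rw [pow_add, h1]; ring
  calc (n : ℝ) ^ (ε * n) = ((2 : ℝ) ^ (((2 : ℝ) ^ k))) ^ (ε * n) := by rw [← h2]
    _ = (2 : ℝ) ^ ((2 : ℝ) ^ k * (ε * n)) := by rw [← Real.rpow_mul (by norm_num)]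
    _ = _ := by rw [h3]

theorem result :
    ¬ (UnivTh ⊨ᵇ infinitelyManyCompositeNN) ∧
    (ℤ ⊨ infinitelyManyCompositeNN ↔ {s : ℕ | ¬ ((2 ^ 2 ^ s) ^ (2 ^ 2 ^ s) + 1 : ℕ).Prime}.Infinite) ∧
    (∀ (r : ℕ) (t : Lb.Term (Fin r)) (δ : ℝ), 0 < δ → ∃ (ε : ℝ) (k₀ : ℕ), 0 < ε ∧
      ∀ (k n : ℕ) (v : Fin r → ℤ), k₀ ≤ k → n = 2 ^ 2 ^ k → (∀ i, |(v i : ℝ)| ≤ (n : ℝ) ^ (ε * n)) →
        (n : ℤ) ^ n + 1 ∣ t.realize v ∨ ((Int.gcd (t.realize v) (n ^ n + 1) : ℕ) : ℝ) ≤ ((n : ℝ) ^ n + 1) ^ δ) := by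
  refine ⟨A_GFI.2, pf_MEA.2, ?_⟩
  intro r t δ hδ
  obtain ⟨ε, m₀, hε, h⟩ := A_GCP r t δ hδ
  refine ⟨ε, m₀, hε, fun k n v hk hn hv => ?_⟩
  have e : n ^ n = 2 ^ 2 ^ (k + 2 ^ k) := pow_eq k n hn
  have eZ : (n : ℤ) ^ n = 2 ^ 2 ^ (k + 2 ^ k) := by exact_mod_cast e
  have eR : (n : ℝ) ^ n = 2 ^ 2 ^ (k + 2 ^ k) := by exact_mod_cast e
  rw [eZ, eR]
  exact h (k + 2 ^ k) v (hk.trans (Nat.le_add_right _ _)) fun i => (hv i).trans (le_of_eq (rpow_eq k n hn ε))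

end Pool.Agent.Results.MP_a70bdc_nt.UniversalSentences
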